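import Mathlib
import Pool.Agent.W223.AC.Stms

set_option autoImplicit false

namespace Pool.Agent.W989.AC.MULT

open Polynomial

attribute [local instance] Polynomial.algebra in
theorem t : Pool.Agent.W223.AC.StmtMULT := by
  intro A _ _ _ y
  have hy : IsIntegral ℚ[X] y := Algebra.IsIntegral.isIntegral y
  let _ : Algebra ℤ[X] A := (Pool.Agent.W223.AC.psi A).toAlgebra
  have : IsScalarTower ℤ[X] ℚ[X] A := IsScalarTower.of_algebraMap_eq (fun x => by
    rfl)
  have := Polynomial.isLocalization (nonZeroDivisors ℤ) ℚ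
  obtain ⟨⟨m, hm⟩, h⟩ := IsIntegral.exists_multiple_integral_of_isLocalization
    (Submonoid.map (C : ℤ →+* ℤ[X]) (nonZeroDivisors ℤ)) (Rₘ := ℚ[X]) y hy
  obtain ⟨a, ha, rfl⟩ := hm
  have ha0 : a ≠ 0 := nonZeroDivisors.ne_zero ha
  have h1 : IsIntegral ℤ[X] ((a : A) * y) := by
    have e : (⟨C a, ⟨a, ha, rfl⟩⟩ : Submonoid.map (C : ℤ →+* ℤ[X]) (nonZeroDivisors ℤ)) • y
        = (a : A) * y := by
      rw [Submonoid.smul_def, Algebra.smul_def]
      congr 1
      simp
    rw [← e]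
    exact h
  refine ⟨a.natAbs, Int.natAbs_ne_zero.mpr ha0, ?_⟩
  show IsIntegral ℤ[X] ((a.natAbs : A) * y)
  rcases Int.natAbs_eq a with h2 | h2
  · have e : ((a.natAbs : ℕ) : A) = (a : A) := by
      conv_rhs => rw [h2]
      simp
    rw [e]
    exact h1
  · have e : ((a.natAbs : ℕ) : A) = -(a : A) := by
      conv_rhs => rw [h2]
      simp
    rw [e, neg_mul]
    exact h1.neg

end Pool.Agent.W989.AC.MULT
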